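import Pool.Agent.Y161.FSP.Part2

/-!
# Subcubic and bipartite planar graphs: far apart vertices are free, partitions into free sets

* In a planar graph of maximum degree at most three every set of vertices at pairwise distance at
  least four is a free set; the vertices can be coloured with 22 colours so that every monochromatic
  set is free.
* In a bipartite planar graph (no bound on the degrees) every set of vertices at pairwise distance
  at least three is a free set; if the maximum degree is at most `D`, the vertices can be coloured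
  with `D ^ 2 + 1` colours so that every monochromatic set is free.
-/

set_option autoImplicit false

namespace Pool.Agent.Results.MP_ffac5a_co.PartitionIntoFreeSets

open Pool.Agent.H891WLC

/-- `p` is a straight-line crossing-free drawing of `G`: distinct vertices are distinct points, every
edge is the open segment between its ends, no edge contains (the image of) a vertex, and distinct
edges are disjoint. -/
def Drawing {V : Type} (G : SimpleGraph V) (p : V → ℝ × ℝ) : Prop :=
  Function.Injective p ∧
    (∀ u v w : V, G.Adj u v → p w ∉ openSegment ℝ (p u) (p v)) ∧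
    (∀ u v x y : V, G.Adj u v → G.Adj x y → s(u, v) ≠ s(x, y) →
      Disjoint (openSegment ℝ (p u) (p v)) (openSegment ℝ (p x) (p y)))

/-- `G` is planar (it has a straight-line crossing-free drawing) -/
def Planar {V : Type} (G : SimpleGraph V) : Prop := ∃ p : V → ℝ × ℝ, Drawing G p

/-- maximum degree at most `D` -/
def MaxDegree {V : Type} (G : SimpleGraph V) (D : ℕ) : Prop := ∀ v, Set.ncard {x | G.Adj v x} ≤ D

/-- `S` is a free set of `G`: for every set `P` of `|S|` points there is a straight-line crossing-free
drawing of `G` in which the vertices of `S` are mapped onto the points of `P`. -/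
def IsFreeSet {V : Type} (G : SimpleGraph V) (S : Finset V) : Prop :=
  ∀ P : Finset (ℝ × ℝ), P.card = S.card →
    ∃ p : V → ℝ × ℝ, Drawing G p ∧ p '' (S : Set V) = (P : Set (ℝ × ℝ))

theorem drawing_of_plane {V : Type} {G : SimpleGraph V} {p : V → ℝ × ℝ} (h : Plane G p) :
    Drawing G p := by
  obtain ⟨hinj, hv, he⟩ := h
  have hend : ∀ u v : V, u ≠ v → p u ∉ openSegment ℝ (p u) (p v) := by
    intro u v huv hmem
    exact huv (hinj (left_mem_openSegment_iff.mp hmem))
  have hend' : ∀ u v : V, u ≠ v → p v ∉ openSegment ℝ (p u) (p v) := by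
    intro u v huv hmem
    rw [openSegment_symm] at hmem
    exact hend v u huv.symm hmem
  refine ⟨hinj, ?_, ?_⟩
  · intro u v w huv hmem
    by_cases h1 : w = u
    · subst h1; exact hend _ _ huv.ne hmem
    · by_cases h2 : w = v
      · subst h2; exact hend' _ _ huv.ne hmem
      · exact hv u v w huv h1 h2 (openSegment_subset_segment ℝ _ _ hmem)
  · intro u v x y huv hxy hne
    rw [Set.disjoint_left]
    intro z hz1 hz2
    obtain ⟨w, hw1, hw2, hzw⟩ := he u v x y huv hxy hne z
      (openSegment_subset_segment ℝ _ _ hz1) (openSegment_subset_segment ℝ _ _ hz2)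
    rcases hw1 with rfl | rfl
    · rw [hzw] at hz1; exact hend _ _ huv.ne hz1
    · rw [hzw] at hz1; exact hend' _ _ huv.ne hz1

theorem plane_of_drawing {V : Type} {G : SimpleGraph V} {p : V → ℝ × ℝ} (h : Drawing G p) :
    Plane G p := by
  obtain ⟨hinj, hv, he⟩ := h
  have hcase : ∀ u v : V, ∀ z ∈ segment ℝ (p u) (p v),
      z = p u ∨ z = p v ∨ z ∈ openSegment ℝ (p u) (p v) := by
    intro u v z hz
    rw [← insert_endpoints_openSegment] at hz
    simpa using hz
  refine ⟨hinj, ?_, ?_⟩
  · intro u v w huv h1 h2 hmem
    rcases hcase u v _ hmem with h | h | h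
    · exact h1 (hinj h)
    · exact h2 (hinj h)
    · exact hv u v w huv h
  · intro u v x y huv hxy hne z hz1 hz2
    rcases hcase u v z hz1 with h1 | h1 | h1
    · rcases hcase x y z hz2 with h2 | h2 | h2
      · exact ⟨u, Or.inl rfl, Or.inl (hinj (h1.symm.trans h2)), h1⟩
      · exact ⟨u, Or.inl rfl, Or.inr (hinj (h1.symm.trans h2)), h1⟩
      · exact absurd (h1 ▸ h2) (hv x y u hxy)
    · rcases hcase x y z hz2 with h2 | h2 | h2
      · exact ⟨v, Or.inr rfl, Or.inl (hinj (h1.symm.trans h2)), h1⟩
      · exact ⟨v, Or.inr rfl, Or.inr (hinj (h1.symm.trans h2)), h1⟩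
      · exact absurd (h1 ▸ h2) (hv x y v hxy)
    · rcases hcase x y z hz2 with h2 | h2 | h2
      · exact absurd (h2 ▸ h1) (hv u v x huv)
      · exact absurd (h2 ▸ h1) (hv u v y huv)
      · exact absurd h2 (Set.disjoint_left.mp (he u v x y huv hxy hne) h1)

theorem free_of {V : Type} {G : SimpleGraph V} {S : Finset V}
    (hfree : ∀ P : Finset (ℝ × ℝ), P.card = S.card →
        ∃ q : V → ℝ × ℝ, Plane G q ∧ ∀ z : ℝ × ℝ, (∃ s ∈ S, q s = z) ↔ z ∈ P) : IsFreeSet G S := by
  intro P hPc
  obtain ⟨q, hq, hqP⟩ := hfree P hPc
  refine ⟨q, drawing_of_plane hq, ?_⟩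
  ext z
  simp only [Set.mem_image, Finset.mem_coe]
  exact hqP z

/-- `d` is smaller than the distance in `G` of any two different elements of `S` -/
def FartherThan {V : Type} (G : SimpleGraph V) (S : Finset V) (d : ℕ) : Prop :=
  ∀ v ∈ S, ∀ w ∈ S, v ≠ w → ∀ q : G.Walk v w, d < q.length

/-- the vertices can be coloured with `k` colours so that every monochromatic set is a free set -/
def PartitionIntoFree {V : Type} (G : SimpleGraph V) (k : ℕ) : Prop :=
  ∃ f : V → Fin k, ∀ S : Finset V, (∀ v ∈ S, ∀ w ∈ S, f v = f w) → IsFreeSet G S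

/-- every set `X` of vertices of `G` contains a free set `S` of `G` with `|X| ≤ k |S|`; in particular
(`X = V(G)`) `G` has a free set with at least `|V(G)| / k` elements -/
def FreeSubsets {V : Type} [Fintype V] (G : SimpleGraph V) (k : ℕ) : Prop :=
  (∃ S : Finset V, IsFreeSet G S ∧ Fintype.card V ≤ k * S.card) ∧
    ∀ X : Finset V, ∃ S : Finset V, S ⊆ X ∧ IsFreeSet G S ∧ X.card ≤ k * S.card

theorem subsets_of_partition {V : Type} [Fintype V] {G : SimpleGraph V} (m : ℕ)
    (h : PartitionIntoFree G (m + 1)) : FreeSubsets G (m + 1) := by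
  obtain ⟨f, hf⟩ := h
  have key : ∀ X : Finset V, ∃ S : Finset V, S ⊆ X ∧ IsFreeSet G S ∧
      X.card ≤ (m + 1) * S.card := by
    intro X
    obtain ⟨S, h1, h2, h3⟩ := Pool.Agent.Y161.FSP2.pick m f X
    exact ⟨S, h1, hf S h2, h3⟩
  refine ⟨?_, key⟩
  obtain ⟨S, -, h1, h2⟩ := key Finset.univ
  exact ⟨S, h1, by rwa [Finset.card_univ] at h2⟩

/-- **The case `Δ = 3` of Q1 with the constant `1 / 22`, and bipartite planar graphs.** (a) In every
planar graph of maximum degree at most three, every set of vertices at pairwise distance at least four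
is a free set; the vertices can be coloured with 22 colours so that every monochromatic set is a free
set; so every `X ⊆ V(G)` contains a free set with at least `|X| / 22` elements. (b) In every bipartite
planar graph, without any bound on the degrees, every set of vertices at pairwise distance at least
three is a free set; and for every `D`, if the maximum degree is at most `D`, then the vertices can be
coloured with `D ^ 2 + 1` colours so that every monochromatic set is a free set, so every `X ⊆ V(G)`
contains a free set with at least `|X| / (D ^ 2 + 1)` elements. -/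
theorem result :
    (∀ (V : Type) [Fintype V] (G : SimpleGraph V), Planar G → MaxDegree G 3 →
      (∀ S : Finset V, FartherThan G S 3 → IsFreeSet G S) ∧
        PartitionIntoFree G 22 ∧ FreeSubsets G 22) ∧
    (∀ (V : Type) [Fintype V] (G : SimpleGraph V), Planar G → G.Colorable 2 →
      (∀ S : Finset V, FartherThan G S 2 → IsFreeSet G S) ∧
        ∀ D : ℕ, MaxDegree G D →
          PartitionIntoFree G (D ^ 2 + 1) ∧ FreeSubsets G (D ^ 2 + 1)) := by
  classical
  constructor
  · intro V _ G hP hG
    obtain ⟨p, hp⟩ := hP
    have hP' : ∃ p : V → ℝ × ℝ, Plane G p := ⟨p, plane_of_drawing hp⟩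
    have hpart : PartitionIntoFree G 22 := by
      obtain ⟨f, hf⟩ := Pool.Agent.Y161.FSP2.cubicPart G hP' hG
      exact ⟨f, fun S hS => free_of (hf S hS).2⟩
    refine ⟨fun S hS => ?_, hpart, subsets_of_partition 21 hpart⟩
    refine free_of (Pool.Agent.Y161.FSP2.cubicFree G hP' hG S
      fun v hv w hw hvw => ⟨?_, ?_, ?_⟩).2
    · intro h
      have := hS v hv w hw hvw h.toWalk
      simp at this
    · rintro x ⟨h1, h2⟩
      have := hS v hv w hw hvw (SimpleGraph.Walk.cons h1 h2.symm.toWalk)
      simp at this
    · intro x y h1 h2 h3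
      have := hS v hv w hw hvw
        (SimpleGraph.Walk.cons h1 (SimpleGraph.Walk.cons h3 h2.symm.toWalk))
      simp at this
  · intro V _ G hP hc
    obtain ⟨p, hp⟩ := hP
    have hP' : ∃ p : V → ℝ × ℝ, Plane G p := ⟨p, plane_of_drawing hp⟩
    refine ⟨fun S hS => ?_, fun D hG => ?_⟩
    · refine free_of (Pool.Agent.Y161.FSP2.bipFree G hP' hc S
        fun v hv w hw hvw => ⟨?_, ?_⟩).2
      · intro h
        have := hS v hv w hw hvw h.toWalk
        simp at this
      · rintro x ⟨h1, h2⟩
        have := hS v hv w hw hvw (SimpleGraph.Walk.cons h1 h2.symm.toWalk)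
        simp at this
    · have hpart : PartitionIntoFree G (D ^ 2 + 1) := by
        obtain ⟨f, hf⟩ := Pool.Agent.Y161.FSP2.bipPart G hP' hc D hG
        rw [sq]
        exact ⟨f, fun S hS => free_of (hf S hS).2⟩
      exact ⟨hpart, subsets_of_partition _ hpart⟩

end Pool.Agent.Results.MP_ffac5a_co.PartitionIntoFreeSets
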